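import Mathlib
import Pool.Agent.H326R2.Check

/-!
The equation `z ^ (2 n) - y ^ (2 n) = x ^ r` with `x` odd: the split analogue of the argument over
the Gaussian integers in `Pool.Agent.H326R2.ULevel`.
-/

namespace Pool.Agent.Y529.Beal

open Pool.Agent.H326R2

/-- first order expansion in `β` of the two powers `(α + β) ^ r`, `(α - β) ^ r` -/
lemma split_expand (α β : ℤ) (r : ℕ) :
    ∃ s t : ℤ, (α + β) ^ r = (α ^ r + β ^ 2 * s) + β * (r * α ^ (r - 1) + β * t) ∧
      (α - β) ^ r = (α ^ r + β ^ 2 * s) - β * (r * α ^ (r - 1) + β * t) := by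
  induction r with
  | zero => exact ⟨0, 0, by simp, by simp⟩
  | succ r ih =>
    obtain ⟨s, t, h1, h2⟩ := ih
    refine ⟨α * s + r * α ^ (r - 1) + β * t, α * t + β * s, ?_, ?_⟩
    · rw [pow_succ, h1]
      rcases Nat.eq_zero_or_pos r with hr | hr
      · subst hr; push_cast; simp; ring
      · obtain ⟨j, rfl⟩ : ∃ j, r = j + 1 := ⟨r - 1, by omega⟩
        push_cast
        ring
    · rw [pow_succ, h2]
      rcases Nat.eq_zero_or_pos r with hr | hr
      · subst hr; push_cast; simp; ring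
      · obtain ⟨j, rfl⟩ : ∃ j, r = j + 1 := ⟨r - 1, by omega⟩
        push_cast
        ring

lemma coprime_primes {a b : ℤ} (H : ∀ l : ℤ, Prime l → l ∣ a → ¬ l ∣ b) : IsCoprime a b := by
  apply isCoprime_of_prime_dvd _ H
  rintro ⟨h1, h2⟩
  exact H 2 Int.prime_two (h1 ▸ dvd_zero _) (h2 ▸ dvd_zero _)

/-- The integer part of the argument. -/
lemma split_level (P Q W : ℤ) (r : ℕ) (hr : Odd r) (hPQ : IsCoprime P Q) (hW : Odd W)
    (h : (P + Q) * (P - Q) = W ^ r) (hP : IsCoprime P (r : ℤ)) (hQ : IsCoprime Q (r : ℤ)) :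
    ∃ α β M N s t : ℤ, P + Q = (α + β) ^ r ∧ P - Q = (α - β) ^ r ∧
      P = α * M ∧ Q = β * N ∧ IsCoprime α M ∧ IsCoprime β N ∧
      M = r * β ^ (r - 1) + α * s ∧ N = r * α ^ (r - 1) + β * t := by
  have hodd : Odd (P + Q) ∧ Odd (P - Q) := by
    have : Odd ((P + Q) * (P - Q)) := h ▸ hW.pow
    exact Int.odd_mul.1 this
  have hcop : IsCoprime (P + Q) (P - Q) := by
    apply coprime_primes
    intro l hl h1 h2
    have h3 : l ∣ 2 * P := by
      have := dvd_add h1 h2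
      have e : P + Q + (P - Q) = 2 * P := by ring
      rwa [e] at this
    have h4 : l ∣ 2 * Q := by
      have := dvd_sub h1 h2
      have e : P + Q - (P - Q) = 2 * Q := by ring
      rwa [e] at this
    rcases hl.dvd_or_dvd h3 with h5 | h5
    · have h6 : Associated l 2 := (hl.associated_of_dvd Int.prime_two h5)
      have h7 : (2 : ℤ) ∣ P + Q := h6.symm.dvd.trans h1
      exact (Int.not_even_iff_odd.2 hodd.1) (even_iff_two_dvd.2 h7)
    · rcases hl.dvd_or_dvd h4 with h6 | h6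
      · have h6' : Associated l 2 := (hl.associated_of_dvd Int.prime_two h6)
        have h7 : (2 : ℤ) ∣ P + Q := h6'.symm.dvd.trans h1
        exact (Int.not_even_iff_odd.2 hodd.1) (even_iff_two_dvd.2 h7)
      · exact hl.not_isUnit (hPQ.isUnit_of_dvd' h5 h6)
  obtain ⟨b, a, hb, ha, -⟩ := split_pow hcop hr h
  have hbo : Odd b := by
    rcases Int.even_or_odd b with h1 | h1
    · exfalso
      have : Even (b ^ r) := Int.even_pow.2 ⟨h1, hr.pos.ne'⟩
      rw [← hb] at this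
      exact (Int.not_even_iff_odd.2 hodd.1) this
    · exact h1
  have hao : Odd a := by
    rcases Int.even_or_odd a with h1 | h1
    · exfalso
      have : Even (a ^ r) := Int.even_pow.2 ⟨h1, hr.pos.ne'⟩
      rw [← ha] at this
      exact (Int.not_even_iff_odd.2 hodd.2) this
    · exact h1
  obtain ⟨α, hα⟩ : Even (b + a) := hbo.add_odd hao
  have hβ' : ∃ β, b - a = β + β := hbo.sub_odd hao
  obtain ⟨β, hβ⟩ := hβ'
  have e1 : b = α + β := by omega
  have e2 : a = α - β := by omega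
  rw [e1] at hb
  rw [e2] at ha
  obtain ⟨s', t, h1, h2⟩ := split_expand α β r
  obtain ⟨t', s, h3, h4⟩ := split_expand β α r
  have hQ1 : Q = β * (r * α ^ (r - 1) + β * t) := by
    have : 2 * Q = 2 * (β * (r * α ^ (r - 1) + β * t)) := by
      have e : 2 * Q = (P + Q) - (P - Q) := by ring
      rw [e, hb, ha, h1, h2]; ring
    exact mul_left_cancel₀ two_ne_zero this
  have hP1 : P = α * (r * β ^ (r - 1) + α * s) := by
    have e3 : (α - β) ^ r = -((β - α) ^ r) := by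
      rw [← hr.neg_pow]; congr 1; ring
    have : 2 * P = 2 * (α * (r * β ^ (r - 1) + α * s)) := by
      have e : 2 * P = (P + Q) + (P - Q) := by ring
      rw [e, hb, ha, e3, add_comm α β, h3, h4]; ring
    exact mul_left_cancel₀ two_ne_zero this
  refine ⟨α, β, _, _, s, t, hb, ha, hP1, hQ1, ?_, ?_, rfl, rfl⟩
  · apply coprime_primes
    intro l hl h5 h6
    have h7 : l ∣ (r : ℤ) * β ^ (r - 1) := by
      have := dvd_sub h6 (Dvd.dvd.mul_right h5 s)
      rwa [add_sub_cancel_right] at this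
    rcases hl.dvd_or_dvd h7 with h8 | h8
    · exact hl.not_isUnit (hP.isUnit_of_dvd' (hP1 ▸ Dvd.dvd.mul_right h5 _) h8)
    · have h9 : l ∣ β := hl.dvd_of_dvd_pow h8
      exact hl.not_isUnit (hPQ.isUnit_of_dvd' (hP1 ▸ Dvd.dvd.mul_right h5 _)
        (hQ1 ▸ Dvd.dvd.mul_right h9 _))
  · apply coprime_primes
    intro l hl h5 h6
    have h7 : l ∣ (r : ℤ) * α ^ (r - 1) := by
      have := dvd_sub h6 (Dvd.dvd.mul_right h5 t)
      rwa [add_sub_cancel_right] at this
    rcases hl.dvd_or_dvd h7 with h8 | h8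
    · exact hl.not_isUnit (hQ.isUnit_of_dvd' (hQ1 ▸ Dvd.dvd.mul_right h5 _) h8)
    · have h9 : l ∣ α := hl.dvd_of_dvd_pow h8
      exact hl.not_isUnit (hPQ.isUnit_of_dvd' (hP1 ▸ Dvd.dvd.mul_right h9 _)
        (hQ1 ▸ Dvd.dvd.mul_right h5 _))

/-- The criterion for `x ^ r + y ^ (2 n) = z ^ (2 n)`, `x` odd. -/
theorem main_split (n r t : ℕ) (hn : Odd n) (hr : Odd r) (ht : t.Prime) (haux : Aux 1 n r t)
    (x y z : ℤ) (hx : Odd x) (hyr : IsCoprime y (r : ℤ)) (hzr : IsCoprime z (r : ℤ))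
    (hyz : IsCoprime y z) (h : x ^ r + (y ^ n) ^ 2 = (z ^ n) ^ 2) : False := by
  have : Fact t.Prime := ⟨ht⟩
  obtain ⟨a1, a2⟩ := haux
  obtain ⟨α, β, M, N, s, t1, h1, h2, h3, h4, h5, h6, h7, h8⟩ :=
    split_level (z ^ n) (y ^ n) x r hr (hyz.symm.pow) hx (by linear_combination -h)
      hzr.pow_left hyr.pow_left
  obtain ⟨c, A, hc, hA, hcA⟩ := split_pow h5 hn h3.symm
  obtain ⟨d, B, hd, hB, hdB⟩ := split_pow h6 hn h4.symm
  have cast := fun (a b : ℤ) (h : a = b) => congrArg (Int.cast : ℤ → ZMod t) h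
  have hcd : ¬ ((c : ZMod t) = 0 ∧ (d : ZMod t) = 0) := by
    rintro ⟨hc0, hd0⟩
    rw [ZMod.intCast_zmod_eq_zero_iff_dvd] at hc0 hd0
    have hu := hyz.isUnit_of_dvd' (hdB ▸ Dvd.dvd.mul_right hd0 B) (hcA ▸ Dvd.dvd.mul_right hc0 A)
    have h2' := ht.two_le
    have : ((t : ℕ) : ℤ) = 1 ∨ ((t : ℕ) : ℤ) = -1 := Int.isUnit_iff.1 hu
    omega
  have hn0 : n ≠ 0 := hn.pos.ne'
  have fα : (α : ZMod t) = (c : ZMod t) ^ n := by exact_mod_cast cast _ _ hc
  have fβ : (β : ZMod t) = (d : ZMod t) ^ n := by exact_mod_cast cast _ _ hd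
  have fM : (A : ZMod t) ^ n = r * (β : ZMod t) ^ (r - 1) + α * s := by
    exact_mod_cast cast _ _ (hA.symm.trans h7)
  have fN : (B : ZMod t) ^ n = r * (α : ZMod t) ^ (r - 1) + β * t1 := by
    exact_mod_cast cast _ _ (hB.symm.trans h8)
  by_cases hc0 : (c : ZMod t) = 0
  · have hd0 : (d : ZMod t) ≠ 0 := fun hh => hcd ⟨hc0, hh⟩
    apply a1 ((A : ZMod t) / (d : ZMod t) ^ (r - 1))
    rw [div_pow, fM, fα, fβ, hc0, zero_pow hn0, zero_mul, add_zero, ← pow_mul, ← pow_mul,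
      mul_comm n, mul_div_assoc, div_self (pow_ne_zero _ hd0), mul_one]
  by_cases hd0 : (d : ZMod t) = 0
  · apply a1 ((B : ZMod t) / (c : ZMod t) ^ (r - 1))
    rw [div_pow, fN, fα, fβ, hd0, zero_pow hn0, zero_mul, add_zero, ← pow_mul, ← pow_mul,
      mul_comm n, mul_div_assoc, div_self (pow_ne_zero _ hc0), mul_one]
  have fP : ((z : ZMod t)) ^ n + (y : ZMod t) ^ n = ((α : ZMod t) + β) ^ r := by
    exact_mod_cast cast _ _ h1
  have fQ : ((z : ZMod t)) ^ n - (y : ZMod t) ^ n = ((α : ZMod t) - β) ^ r := by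
    exact_mod_cast cast _ _ h2
  refine a2 z y c d hc0 hd0 ⟨?_, ?_⟩
  · rw [Nat.cast_one, one_pow, one_mul, one_mul, one_mul, fP, fα, fβ]
  · rw [Nat.cast_one, one_pow, one_mul, one_mul, one_mul, fQ, fα, fβ]

end Pool.Agent.Y529.Beal
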