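import Mathlib
import Pool.Agent.Y529.Beal.Split
import Pool.Agent.H326R2.SFour

/-!
Explicit auxiliary primes `2 n + 1` and `4 n + 1` for the split equation.
-/

namespace Pool.Agent.Y529.Beal

open Pool.Agent.H326R2

lemma pow_ne_of_not_dvd {n t e : ℕ} [Fact t.Prime] (hn : n.Prime) (ht : t = e * n + 1)
    (g : ZMod t) (hg : g ≠ 0) (hge : g ^ e ≠ 1) (N : ℕ) (hN : ¬ n ∣ N) : g ^ (e * N) ≠ 1 := by
  intro h
  have h1 : g ^ (e * n) = 1 := by
    have := ZMod.pow_card_sub_one_eq_one hg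
    have e1 : t - 1 = e * n := by omega
    rwa [e1] at this
  have h3 : g ^ (Nat.gcd (e * n) (e * N)) = 1 := pow_gcd_eq_one.2 ⟨h1, h⟩
  have hc : Nat.Coprime n N := (Nat.Prime.coprime_iff_not_dvd hn).2 hN
  rw [Nat.gcd_mul_left, hc, mul_one] at h3
  exact hge h3

/-- `t` is a prime such that all nonzero `n`-th powers modulo `t` have order dividing `4`. -/
lemma aux_of_four {n r t : ℕ} (hn0 : n ≠ 0) (ht : t.Prime) (ht2 : t ≠ 2)
    (h4 : ∀ a : ZMod t, a ≠ 0 → (a ^ n) ^ 4 = 1)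
    (hr1 : 1 ≤ r) (r0 : (r : ZMod t) ≠ 0) (r4 : (r : ZMod t) ^ 4 ≠ 1)
    (k1 : (2 : ZMod t) ^ (4 * r) ≠ 1) (k2 : (2 : ZMod t) ^ (4 * (r - 1)) ≠ 1) : Aux 1 n r t := by
  have : Fact t.Prime := ⟨ht⟩
  have two_ne : (2 : ZMod t) ≠ 0 := two_ne_zero' ht2
  have hrr : r - 1 + 1 = r := by omega
  constructor
  · intro a ha
    have ha0 : a ≠ 0 := by
      rintro rfl
      rw [zero_pow hn0] at ha
      exact r0 ha.symm
    apply r4
    rw [← ha]
    exact h4 a ha0
  · rintro a b c d hc hd ⟨h1, h2⟩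
    simp only [Nat.cast_one, one_pow, one_mul] at h1 h2
    set A := a ^ n with hA
    set B := b ^ n with hB
    set u := c ^ n with hu
    set v := d ^ n with hv
    have hu4 : u ^ 4 = 1 := h4 c hc
    have hv4 : v ^ 4 = 1 := h4 d hd
    have hA4 : A = 0 ∨ A ^ 4 = 1 := by
      rcases eq_or_ne a 0 with h | h
      · left; rw [hA, h, zero_pow hn0]
      · right; exact h4 a h
    have hB4 : B = 0 ∨ B ^ 4 = 1 := by
      rcases eq_or_ne b 0 with h | h
      · left; rw [hB, h, zero_pow hn0]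
      · right; exact h4 b h
    have hu0 : u ≠ 0 := pow_ne_zero _ hc
    have hv0 : v ≠ 0 := pow_ne_zero _ hd
    -- the first kind of contradiction
    have key1 : ∀ w : ZMod t, w ^ 4 = 1 → (2 * w) ^ r = 2 * A → False := by
      intro w hw h
      have hw0 : w ≠ 0 := by
        rintro rfl
        simp at hw
      rcases hA4 with h3 | h3
      · rw [h3, mul_zero] at h
        exact (mul_ne_zero two_ne hw0) (pow_eq_zero_iff (by omega) |>.1 h)
      · have h5 : (2 : ZMod t) ^ (r - 1) * w ^ r = A := by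
          apply mul_left_cancel₀ two_ne
          rw [← h, mul_pow, ← mul_assoc, ← pow_succ', hrr]
        apply k2
        have h6 : ((2 : ZMod t) ^ (r - 1) * w ^ r) ^ 4 = 1 := by rw [h5, h3]
        rw [mul_pow, ← pow_mul w, mul_comm r 4, pow_mul w, hw, one_pow, mul_one, ← pow_mul,
          mul_comm (r - 1) 4] at h6
        exact h6
    have hprod : (u ^ 2 - v ^ 2) ^ r = A ^ 2 - B ^ 2 := by
      have e : u ^ 2 - v ^ 2 = (u + v) * (u - v) := by ring
      rw [e, mul_pow, h1, h2]; ring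
    have hu2 : u ^ 2 = 1 ∨ u ^ 2 = -1 := by
      have : (u ^ 2) * (u ^ 2) = 1 := by rw [← hu4]; ring
      exact mul_self_eq_one_iff.1 this
    have hv2 : v ^ 2 = 1 ∨ v ^ 2 = -1 := by
      have : (v ^ 2) * (v ^ 2) = 1 := by rw [← hv4]; ring
      exact mul_self_eq_one_iff.1 this
    by_cases huv : u ^ 2 = v ^ 2
    · have h3 : (u - v) * (u + v) = 0 := by
        have : (u - v) * (u + v) = u ^ 2 - v ^ 2 := by ring
        rw [this, huv, sub_self]
      rcases mul_eq_zero.1 h3 with h5 | h5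
      · have h6 : u = v := sub_eq_zero.1 h5
        rw [h5, zero_pow (by omega)] at h2
        have h7 : A = B := (sub_eq_zero.1 h2.symm)
        exact key1 u hu4 (by rw [two_mul, two_mul]; nth_rewrite 2 [h6]; rw [h1, ← h7])
      · have h6 : u = -v := eq_neg_of_add_eq_zero_left h5
        rw [h5, zero_pow (by omega)] at h1
        have h7 : B = -A := eq_neg_of_add_eq_zero_right h1.symm
        refine key1 u hu4 ?_
        have h8 : 2 * u = u - v := by
          have : v = -u := by rw [h6, neg_neg]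
          rw [this]; ring
        rw [h8, h2, h7]; ring
    · -- `u² = - v²`
      have h3 : (u ^ 2 - v ^ 2) ^ 2 = 4 := by
        rcases hu2 with h5 | h5 <;> rcases hv2 with h6 | h6
        · exact absurd (h5.trans h6.symm) huv
        · rw [h5, h6]; norm_num
        · rw [h5, h6]; norm_num
        · exact absurd (h5.trans h6.symm) huv
      have h5 : (A ^ 2 - B ^ 2) ^ 4 = 2 ^ (4 * r) := by
        rw [← hprod, ← pow_mul, mul_comm r 4, show 4 * r = 2 * (2 * r) by ring, pow_mul, h3,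
          show (4 : ZMod t) = 2 ^ 2 by norm_num, ← pow_mul]
      have hsq : ∀ C : ZMod t, C = 0 ∨ C ^ 4 = 1 → C ^ 2 = 0 ∨ C ^ 2 = 1 ∨ C ^ 2 = -1 := by
        rintro C (h | h)
        · left; rw [h]; ring
        · right
          have : (C ^ 2) * (C ^ 2) = 1 := by rw [← h]; ring
          exact mul_self_eq_one_iff.1 this
      have z0 : (2 : ZMod t) ^ (4 * r) ≠ 0 := pow_ne_zero _ two_ne
      have z4 : (2 : ZMod t) ^ (4 * r) ≠ 2 ^ 4 := by
        intro h
        apply k2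
        have e : 4 * r = 4 * (r - 1) + 4 := by omega
        rw [e, pow_add] at h
        have h7 : (2 : ZMod t) ^ 4 ≠ 0 := pow_ne_zero _ two_ne
        exact mul_right_cancel₀ h7 (by rw [h, one_mul])
      rcases hsq A hA4 with g1 | g1 | g1 <;> rcases hsq B hB4 with g2 | g2 | g2 <;>
        rw [g1, g2] at h5
      · exact z0 (by rw [← h5]; norm_num)
      · exact k1 (by rw [← h5]; norm_num)
      · exact k1 (by rw [← h5]; norm_num)
      · exact k1 (by rw [← h5]; norm_num)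
      · exact z0 (by rw [← h5]; norm_num)
      · exact z4 (by rw [← h5]; norm_num)
      · exact k1 (by rw [← h5]; norm_num)
      · exact z4 (by rw [← h5]; norm_num)
      · exact z0 (by rw [← h5]; norm_num)

/-- The family `t = 2 n + 1`. -/
theorem aux_one_two (n r : ℕ) (hn : n.Prime) (hn5 : 5 ≤ n) (ht : (2 * n + 1).Prime)
    (hr : Odd r) (h0 : (r : ZMod n) ≠ 0) (h1 : (r : ZMod n) ≠ 1)
    (k0 : (r : ZMod (2 * n + 1)) ≠ 0) (k1 : (r : ZMod (2 * n + 1)) ≠ 1)
    (k2 : (r : ZMod (2 * n + 1)) ≠ -1) : Aux 1 n r (2 * n + 1) := by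
  have : Fact (2 * n + 1).Prime := ⟨ht⟩
  have hr1 : 1 ≤ r := hr.pos
  have n2 : n ≠ 2 := by omega
  have ht11 : 11 ≤ 2 * n + 1 := by omega
  have two_ne : (2 : ZMod (2 * n + 1)) ≠ 0 := by exact_mod_cast small_ne ht11 2 (by omega) (by omega)
  have three_ne : (3 : ZMod (2 * n + 1)) ≠ 0 := by exact_mod_cast small_ne ht11 3 (by omega) (by omega)
  have h4 : (2 : ZMod (2 * n + 1)) ^ 2 ≠ 1 := by
    intro h
    apply three_ne
    linear_combination h
  have main := fun N (hN : ¬ n ∣ N) =>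
    pow_ne_of_not_dvd (e := 2) hn rfl (2 : ZMod (2 * n + 1)) two_ne h4 N hN
  have d2 : ∀ N, ¬ n ∣ N → ¬ n ∣ 2 * N := by
    intro N hN h
    rcases (Nat.Prime.dvd_mul hn).1 h with h' | h'
    · exact n2 ((Nat.prime_dvd_prime_iff_eq hn Nat.prime_two).1 h')
    · exact hN h'
  refine aux_of_four hn.ne_zero ht (by omega) ?_ hr1 k0 ?_ ?_ ?_
  · intro a ha
    have := sqp rfl a ha
    have e : (a ^ n) ^ 4 = ((a ^ n) ^ 2) ^ 2 := by ring
    rw [e, this, one_pow]
  · intro h
    have hr0 : (r : ZMod (2 * n + 1)) ^ (2 * n) = 1 := by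
      have := ZMod.pow_card_sub_one_eq_one k0
      simpa using this
    have h3 : (r : ZMod (2 * n + 1)) ^ (Nat.gcd (2 * n) 4) = 1 := pow_gcd_eq_one.2 ⟨hr0, h⟩
    have h5 : Nat.gcd (2 * n) 4 = 2 := by
      have : Nat.Coprime n 2 := (Nat.coprime_primes hn Nat.prime_two).2 n2
      rw [show (4 : ℕ) = 2 * 2 by norm_num, Nat.gcd_mul_left, this]
    rw [h5, sq] at h3
    rcases mul_self_eq_one_iff.1 h3 with h6 | h6
    · exact k1 h6
    · exact k2 h6
  · rw [show 4 * r = 2 * (2 * r) by ring]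
    exact main _ (d2 _ (not_dvd_of_cast h0))
  · rw [show 4 * (r - 1) = 2 * (2 * (r - 1)) by ring]
    exact main _ (d2 _ (not_dvd_sub_of_cast hr1 h1))

/-- The family `t = 4 n + 1`. -/
theorem aux_one_four (n r : ℕ) (hn : n.Prime) (hn3 : 3 ≤ n) (ht : (4 * n + 1).Prime)
    (hr : Odd r) (h0 : (r : ZMod n) ≠ 0) (h1 : (r : ZMod n) ≠ 1)
    (k0 : (r : ZMod (4 * n + 1)) ≠ 0) (k1 : (r : ZMod (4 * n + 1)) ^ 4 ≠ 1) :
    Aux 1 n r (4 * n + 1) := by
  have : Fact (4 * n + 1).Prime := ⟨ht⟩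
  have hr1 : 1 ≤ r := hr.pos
  have ht2 : 4 * n + 1 ≠ 2 := by omega
  have two_ne : (2 : ZMod (4 * n + 1)) ≠ 0 := two_ne_zero' ht2
  have h4 : (2 : ZMod (4 * n + 1)) ^ 4 ≠ 1 := by
    intro h
    have h5 : ((15 : ℕ) : ZMod (4 * n + 1)) = 0 := by
      push_cast
      linear_combination h
    rw [ZMod.natCast_eq_zero_iff] at h5
    have h6 : 4 * n + 1 ≤ 15 := Nat.le_of_dvd (by norm_num) h5
    have h7 : n = 3 := by omega
    subst h7
    norm_num at h5
  have main := fun N (hN : ¬ n ∣ N) =>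
    pow_ne_of_not_dvd (e := 4) hn rfl (2 : ZMod (4 * n + 1)) two_ne h4 N hN
  refine aux_of_four hn.ne_zero ht ht2 ?_ hr1 k0 k1 (main _ (not_dvd_of_cast h0))
    (main _ (not_dvd_sub_of_cast hr1 h1))
  intro a ha
  have := ZMod.pow_card_sub_one_eq_one ha
  rw [← pow_mul, mul_comm n 4]
  simpa using this

end Pool.Agent.Y529.Beal
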